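import Pool.Agent.W458.FJ.Stm
import Pool.Agent.H952R2.Sextic.CommonZero

/-! Nontrivial common zeros of weighted homogeneous polynomials. -/

set_option autoImplicit false

namespace Pool.Agent.W235.FJ.Z2

open MvPolynomial

theorem eval_zero_of_pos {ι : Type} (a : ι → ℕ) (d : ℕ) (hd : 0 < d) (f : MvPolynomial ι ℂ)
    (hf : IsWeightedHomogeneous a f d) : eval 0 f = 0 := by
  have h1 : eval (0 : ι → ℂ) f = coeff 0 f := by
    rw [← constantCoeff_eq]
    have h2 := MvPolynomial.eval_zero (R := ℂ) (σ := ι)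
    rw [← h2]
  rw [h1]
  by_contra hcon
  have h3 := hf hcon
  rw [map_zero] at h3
  omega

theorem common {ι : Type} [Fintype ι] [DecidableEq ι] {κ : Type} [Fintype κ]
    (f : κ → MvPolynomial ι ℂ) (h0 : ∀ k, eval 0 (f k) = 0) (K : Finset ι)
    (hK : Fintype.card κ < K.card) :
    ∃ v : ι → ℂ, v ≠ 0 ∧ (∀ i, i ∉ K → v i = 0) ∧ ∀ k, eval v (f k) = 0 := by
  classical
  let g : κ → MvPolynomial {i // i ∈ K} ℂ := fun k =>
    aeval (fun i => if h : i ∈ K then X ⟨i, h⟩ else 0) (f k)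
  have hg : ∀ k (x : {i // i ∈ K} → ℂ),
      eval x (g k) = eval (fun i => if h : i ∈ K then x ⟨i, h⟩ else 0) (f k) := by
    intro k x
    have h1 : eval x (g k) = eval₂ ((eval x).comp (algebraMap ℂ (MvPolynomial {i // i ∈ K} ℂ)))
        (fun i => eval x (if h : i ∈ K then (X ⟨i, h⟩ : MvPolynomial {i // i ∈ K} ℂ) else 0))
        (f k) := by
      show eval x (aeval _ (f k)) = _
      rw [MvPolynomial.aeval_def]
      exact MvPolynomial.hom_eval₂ _ _ _ _
    have h2 : (eval x).comp (algebraMap ℂ (MvPolynomial {i // i ∈ K} ℂ)) = RingHom.id ℂ := by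
      refine RingHom.ext fun c => ?_
      simp
    rw [h1, h2]
    have h3 : (fun i => eval x (if h : i ∈ K then (X ⟨i, h⟩ : MvPolynomial {i // i ∈ K} ℂ)
        else 0)) = fun i => if h : i ∈ K then x ⟨i, h⟩ else 0 := by
      funext i
      split_ifs with h
      · simp
      · simp
    rw [h3]
    rfl
  obtain ⟨x, hx0, hx⟩ := Pool.Agent.H952R2.Sextic.exists_common_zero (K := ℂ)
    (ι := {i // i ∈ K}) (κ := κ) (by simpa using hK) g (fun k => by
      rw [hg]
      have h1 : (fun i => if h : i ∈ K then (0 : {i // i ∈ K} → ℂ) ⟨i, h⟩ else 0) =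
          (0 : ι → ℂ) := by
        funext i
        split_ifs <;> rfl
      rw [h1]
      exact h0 k)
  refine ⟨fun i => if h : i ∈ K then x ⟨i, h⟩ else 0, ?_, ?_, ?_⟩
  · intro hcon
    apply hx0
    funext i
    have h1 := congrFun hcon i.1
    simp only [i.2, dite_true, Pi.zero_apply] at h1
    exact h1
  · intro i hi
    simp [hi]
  · intro k
    rw [← hg]
    exact hx k

theorem main : Pool.Agent.W458.FJ.Z2 := by
  intro ι _ _ a ha d₁ d₂ hd₁ hd₂ f₁ f₂ hf₁ hf₂ K hK
  obtain ⟨v, hv0, hvK, hv⟩ := common (κ := Fin 2) ![f₁, f₂] (fun k => by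
    fin_cases k
    · exact eval_zero_of_pos a d₁ hd₁ f₁ hf₁
    · exact eval_zero_of_pos a d₂ hd₂ f₂ hf₂) K (by simp only [Fintype.card_fin]; omega)
  exact ⟨v, hv0, hvK, hv 0, hv 1⟩

theorem main1 : Pool.Agent.W458.FJ.Z1 := by
  intro ι _ _ a ha d hd f hf K hK
  obtain ⟨v, hv0, hvK, hv⟩ := common (κ := Fin 1) ![f] (fun k => by
    fin_cases k
    exact eval_zero_of_pos a d hd f hf) K (by simp only [Fintype.card_fin]; omega)
  exact ⟨v, hv0, hvK, hv 0⟩

end Pool.Agent.W235.FJ.Z2
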